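import Pool.Agent.W877.UF.Stm2

set_option autoImplicit false

namespace Pool.Agent.W137.UF

open Pool.Agent.W877.UF

variable {X : Type}

inductive Reach (R : Ar X) : ℕ → X → Prop
  | zero : Reach R 0 R.z
  | succ {i : ℕ} {x y : X} : Reach R i x → R.B x → R.B y → R.s x y → Reach R (i + 1) y

theorem Reach.b {R : Ar X} (h : R.Ax) {i : ℕ} {x : X} (hx : Reach R i x) : R.B x := by
  cases hx with
  | zero => exact h.1
  | succ _ _ h2 _ => exact h2

theorem Reach.uniq {R : Ar X} (h : R.Ax) : ∀ {i : ℕ} {x : X}, Reach R i x →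
    ∀ {j : ℕ}, Reach R j x → i = j := by
  intro i x hx
  induction hx with
  | zero =>
    intro j hj
    cases hj with
    | zero => rfl
    | succ _ h1 _ h3 => exact absurd h3 (h.2.1 _ h1)
  | @succ i x y h0 h1 h2 h3 ih =>
    intro j hj
    cases hj with
    | zero => exact absurd h3 (h.2.1 _ h1)
    | @succ j x' _ h0' h1' h2' h3' =>
      have h4 := h.2.2.1 x x' y h1 h1' h2 h3 h3'
      subst h4
      rw [ih h0']

theorem Reach.all {R : Ar X} (hI : R.Ind) (x : X) (hx : R.B x) :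
    ∃ i, Reach R i x := by
  refine hI (fun x => ∃ i, Reach R i x) ⟨0, Reach.zero⟩ ?_ x hx
  rintro x x' h1 h2 ⟨i, hi⟩ h3
  exact ⟨i + 1, Reach.succ hi h1 h2 h3⟩

open Classical in
noncomputable def nu (R : Ar X) (x : X) : ℕ := if h : ∃ i, Reach R i x then h.choose else 0

theorem nu_reach {R : Ar X} (hI : R.Ind) {x : X} (hx : R.B x) :
    Reach R (nu R x) x := by
  have h1 := Reach.all hI x hx
  unfold nu
  rw [dif_pos h1]
  exact h1.choose_spec

theorem nu_eq {R : Ar X} (h : R.Ax) (hI : R.Ind) {x : X} {i : ℕ} (hi : Reach R i x) :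
    nu R x = i :=
  (nu_reach hI (hi.b h)).uniq h hi

theorem nu_succ {R : Ar X} (h : R.Ax) (hI : R.Ind) {x y : X} (hx : R.B x) (hy : R.B y)
    (hs : R.s x y) : nu R y = nu R x + 1 :=
  nu_eq h hI (Reach.succ (nu_reach hI hx) hx hy hs)

theorem nu_zero {R : Ar X} (h : R.Ax) (hI : R.Ind) : nu R R.z = 0 :=
  nu_eq h hI Reach.zero

theorem nu_add {R : Ar X} (h : R.Ax) (hI : R.Ind) {n : ℕ} {y : X} (hn : Reach R n y) :
    ∀ x w : X, R.B x → R.B w → R.A x y w → nu R w = nu R x + n := by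
  induction hn with
  | zero =>
    intro x w hx hw ha
    rw [h.2.2.2.1 x w hx hw ha, add_zero]
  | @succ i y y' h0 h1 h2 h3 ih =>
    intro x w' hx hw' ha
    obtain ⟨w, hw, h4, h5⟩ := h.2.2.2.2.1 x y y' w' hx h1 h2 hw' h3 ha
    rw [nu_succ h hI hw hw' h5, ih x w hx hw h4, add_assoc]

theorem nu_mul {R : Ar X} (h : R.Ax) (hI : R.Ind) {n : ℕ} {y : X} (hn : Reach R n y) :
    ∀ x w : X, R.B x → R.B w → R.M x y w → nu R w = nu R x * n := by
  induction hn with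
  | zero =>
    intro x w hx hw ha
    rw [h.2.2.2.2.2.1 x w hx hw ha, nu_zero h hI, mul_zero]
  | @succ i y y' h0 h1 h2 h3 ih =>
    intro x w' hx hw' ha
    obtain ⟨w, hw, h4, h5⟩ := h.2.2.2.2.2.2 x y y' w' hx h1 h2 hw' h3 ha
    rw [nu_add h hI (nu_reach hI hx) w w' hw hw' h5, ih x w hx hw h4]
    ring

theorem nu_val {R : Ar X} (h : R.Ax) (hI : R.Ind) {V : Type} (x : V → X) (hx : ∀ i, R.B (x i))
    (c : Circ V) : ∀ a, R.B a → R.Val x c a → nu R a = c.ev (fun i => nu R (x i)) := by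
  induction c with
  | var i =>
    intro a _ hv
    have h1 : a = x i := hv
    rw [h1]
    rfl
  | zero =>
    intro a _ hv
    have h1 : a = R.z := hv
    rw [h1, nu_zero h hI]
    rfl
  | succ c ih =>
    rintro a ha ⟨a', h1, h2, h3⟩
    rw [nu_succ h hI h1 ha h3, ih a' h1 h2]
    rfl
  | add c d ihc ihd =>
    rintro a ha ⟨a₁, a₂, h1, h2, h3, h4, h5⟩
    rw [nu_add h hI (nu_reach hI h2) a₁ a h1 ha h5, ihc a₁ h1 h3, ihd a₂ h2 h4]
    rfl
  | mul c d ihc ihd =>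
    rintro a ha ⟨a₁, a₂, h1, h2, h3, h4, h5⟩
    rw [nu_mul h hI (nu_reach hI h2) a₁ a h1 ha h5, ihc a₁ h1 h3, ihd a₂ h2 h4]
    rfl

theorem snd : StmSnd := by
  intro X R h hI
  refine ⟨nu R, fun x y hx hy hs => nu_succ h hI hx hy hs, nu_zero h hI, ?_⟩
  rintro d L a ha ⟨x, hx, hL⟩
  refine ⟨fun i => nu R ((Fin.cons a x : Fin (d + 1) → X) i), rfl, ?_⟩
  intro q hq
  obtain ⟨b, hb, h1, h2⟩ := hL q hq
  have hB : ∀ i, R.B ((Fin.cons a x : Fin (d + 1) → X) i) := by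
    intro i
    refine Fin.cases ?_ (fun j => ?_) i
    · exact ha
    · exact hx j
  rw [← nu_val h hI _ hB q.1 b hb h1, ← nu_val h hI _ hB q.2 b hb h2]

end Pool.Agent.W137.UF
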